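import Pool.Agent.Y403.CF.Main

/-!
# Moving chips in strongly connected digraphs of total degree three is co-NP-hard

The reduction is from the complement of 3SAT.  As in the earlier reduction of this repository, a
3SAT instance becomes a vector-sum problem in the class group of a digraph in which every arc goes
back or one step forward; here all out-degrees are made equal to the same power of two.  Then every
vertex is replaced by a complete binary tree, the arcs with a common target are gathered along a
path, and an arc is added which leaves the sink.  The initial distribution is obtained from the
target one by moving `D` chips from the sink to the first vertex.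
-/

namespace Pool.Agent.Results.MP_5100e0_lc.MovingChipsHard

open Pool.Agent.NPC hiding CoNPHard
open Pool.Agent.NPC.H577R2 Pool.Agent.H577R2 Pool.Agent.Y403.CF

/-- Chip-firing reachability is co-NP-hard on tame instances: a strongly connected simple digraph
of total degree at most three, in which `D` chips are to be moved from one vertex to another on a
background of zeros and ones.  In particular it is co-NP-hard both for simple digraphs and for
multigraphs. -/
theorem result : TameHard ∧ CoNPHard (lang SimpleReach) ∧ CoNPHard (lang MultiReach) :=
  ⟨Pool.Agent.NPC.Y403CF.tameHard,
    Pool.Agent.NPC.H577R2.coNPHard_of Pool.Agent.NPC.Y403CF.hardPr_tame.toHardI,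
    Pool.Agent.NPC.H577R2.coNPHard_of (Pool.Agent.NPC.Y403CF.hardPr_tame.toHardI.trans
      Pool.Agent.NPC.H577R2.poly_toMulti
      (fun I => not_congr (Pool.Agent.NPC.H577R2.toMulti_correct I).symm))⟩

end Pool.Agent.Results.MP_5100e0_lc.MovingChipsHard
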